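import Pool.Agent.H827Z.Net.Final

set_option autoImplicit false

open Pool.Agent.H827Z.Net
open scoped ContDiff

namespace Pool.Agent.Results.MP_260507_an.ARigidInput

/-- The rigid input conjecture: rigidly synchronous or rigidly phase-related nodes of a hyperbolic
periodic orbit of an admissible system are input isomorphic. -/
theorem result {C A : Type} [Fintype C] [Fintype A] (G : Network C A) (k : C → ℕ)
    (hk : ∀ c, 0 < k c) (hkT : ∀ c d, G.nodeT c d → k c = k d)
    (f : (∀ c, EuclideanSpace ℝ (Fin (k c))) → ∀ c, EuclideanSpace ℝ (Fin (k c)))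
    (hf : ContDiff ℝ ∞ f) (hadm : G.Admissible (V := fun n => EuclideanSpace ℝ (Fin n)) k f)
    (x : ℝ → ∀ c, EuclideanSpace ℝ (Fin (k c))) (T : ℝ) (hx : IsPeriodicOrbit f x T)
    (hh : IsHyperbolic f x T) (K : Set (∀ c, EuclideanSpace ℝ (Fin (k c)))) (c d : C)
    (hR : RigidOn K
        (fun g => ContDiff ℝ ∞ g ∧ G.Admissible (V := fun n => EuclideanSpace ℝ (Fin n)) k g) f x T
        (fun y _ => ∀ t, st (V := fun n => EuclideanSpace ℝ (Fin n)) k (y t) c =
          st (V := fun n => EuclideanSpace ℝ (Fin n)) k (y t) d) ∨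
      ∃ θ : ℝ, RigidOn K
        (fun g => ContDiff ℝ ∞ g ∧ G.Admissible (V := fun n => EuclideanSpace ℝ (Fin n)) k g) f x T
        (fun y S => ∀ t, st (V := fun n => EuclideanSpace ℝ (Fin n)) k (y t) c =
          st (V := fun n => EuclideanSpace ℝ (Fin n)) k (y (t + θ * S / T)) d)) :
    G.InputIsomorphic c d := by
  have hnt : ∀ c, Nontrivial (EuclideanSpace ℝ (Fin (k c))) := fun c =>
    haveI : Nonempty (Fin (k c)) := ⟨⟨0, hk c⟩⟩
    inferInstance
  rcases hR with h | ⟨θ, h⟩
  · obtain ⟨β, hβ⟩ := rigid_input (V := fun n => EuclideanSpace ℝ (Fin n)) (θ := 0) hkT hnt hf hadm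
      hx hh (by simpa using h.univ)
    exact inputIsomorphic_of_iso hβ
  · obtain ⟨β, hβ⟩ := rigid_input (V := fun n => EuclideanSpace ℝ (Fin n)) hkT hnt hf hadm
      hx hh h.univ
    exact inputIsomorphic_of_iso hβ

end Pool.Agent.Results.MP_260507_an.ARigidInput
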